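import Pool.Agent.H6.RA.Light

/-!
# Classification of the irreducible right alternative bimodules over `M₂(F)`, `char F ≠ 2`

Every irreducible right alternative bimodule over the algebra of 2 by 2 matrices over a field `F` of
characteristic not two, unital or not, of any dimension, is isomorphic to exactly one of

* the one-dimensional bimodule with zero actions, the columns `F²` with zero right action, the rows
  `F²` with zero left action, the regular bimodule `M₂(F)` (these four are the associative ones),
* one exceptional bimodule of dimension six,
* `N(Y)`, where `Y` is an irreducible module over `F⟨x, s, z, q⟩/(q² - q)`.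
-/

namespace Pool.Agent.Results.MP_cf4f28_al.Classification

open Pool.Agent.H6.RA

universe u v w

/-- Let `F` be a field in which `2 ≠ 0`.
(1) The five special bimodules (zero, columns, rows, regular, exceptional) are right alternative and
irreducible, of dimensions `1, 2, 2, 4, 6`.
(2) For every irreducible module `Y` over `F⟨x, s, z, q⟩/(q² - q)` the bimodule `N(Y)` is
right alternative and irreducible, and it is finite-dimensional exactly when `Y` is.
(3) Every irreducible right alternative bimodule over the algebra of 2 by 2 matrices is isomorphic to
a special one or to `N(Y)` for an irreducible `Y`.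
(4) No repetitions: the special bimodules are pairwise non-isomorphic, none is isomorphic to an
`N(Y)`, and `N(Y)`, `N(Y')` are isomorphic if and only if `Y` and `Y'` are. -/
theorem result (F : Type u) [Field F] (h2 : (2 : F) ≠ 0) :
    (∀ i : Fin 5, (specialB F i).IsRightAlternative ∧ (specialB F i).IsIrreducible ∧
      Module.finrank F (specialB F i).carrier = ![1, 2, 2, 4, 6] i) ∧
    (∀ Y : QMod.{u, v} F, Y.IsIrreducible → Y.N.IsRightAlternative ∧ Y.N.IsIrreducible ∧
      (FiniteDimensional F Y.N.carrier ↔ FiniteDimensional F Y.carrier)) ∧
    (∀ M : Bimod.{u, v} F, M.IsRightAlternative → M.IsIrreducible →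
      (∃ i : Fin 5, M.Iso (specialB F i)) ∨
        ∃ Y : QMod.{u, v} F, Y.IsIrreducible ∧ M.Iso Y.N) ∧
    (∀ i j : Fin 5, (specialB F i).Iso (specialB F j) → i = j) ∧
    (∀ Y : QMod.{u, v} F, Y.IsIrreducible → ∀ i : Fin 5, ¬ Y.N.Iso (specialB F i)) ∧
    (∀ (Y : QMod.{u, v} F) (Y' : QMod.{u, w} F), Y.N.Iso Y'.N ↔ Y.Iso Y') :=
  main_light F h2

end Pool.Agent.Results.MP_cf4f28_al.Classification
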